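import Pool.Agent.H446Z.Bih.Sub

set_option autoImplicit false

namespace Pool.Agent.Results.MP_44343f_gt.ACounterexample

open Pool.Agent.H446Z.Harm Pool.Agent.H446Z.Bih
open scoped ContDiff

/-- There are a complete smooth Riemannian metric `H` of nonpositive sectional curvature on `ℝ⁵` and
a smooth immersion `φ : ℝ⁴ → ℝ⁵` whose induced metric is complete, whose bitension field vanishes
and whose tension field (four times the mean curvature vector) vanishes nowhere. -/
theorem result : ∃ (H : Euc 5 → Matrix (Fin 5) (Fin 5) ℝ) (φ : Euc 4 → Euc 5),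
    IsMetric H ∧ Complete H ∧ NonposCurv H ∧ ContDiff ℝ ∞ φ ∧ IsMetric (pullback H φ) ∧
      Complete (pullback H φ) ∧ (∀ y, bitension H φ y = 0) ∧ ∀ y, tau H φ y ≠ 0 :=
  main

end Pool.Agent.Results.MP_44343f_gt.ACounterexample
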